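import Pool.Agent.Y300.KS.Stm

/-! A limit cycle in a square annulus in exponential coordinates (helper333, job KS-RING of
helper300; adapted from `Pool/Agent/K300/Cell.lean`). -/

open Set Filter Topology

namespace Pool.Agent.Y333.KS

open Pool.Agent.K300 Pool.Agent.Y300.KS

/-- a variant of `Quad.of_near` which needs the sign conditions only on a ring -/
theorem of_near' {W : ℝ × ℝ → ℝ × ℝ} {α β : ℝ → ℝ} {a₀ a₁ a₂ a₃ b₀ b₁ b₂ b₃ : ℝ}
    (hα : Coord α a₀ a₁ a₂ a₃) (hβ : Coord β b₀ b₁ b₂ b₃)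
    (h1 : ∀ x ∈ Icc 0 a₃, ∀ y ∈ Icc 0 b₃, (1 ≤ α x ∨ 1 ≤ β y) → mg ≤ tp (α x) (β y) →
      0 < (W (x, y)).1)
    (h2 : ∀ x ∈ Icc 0 a₃, ∀ y ∈ Icc 0 b₃, (1 ≤ α x ∨ 1 ≤ β y) → tp (α x) (β y) ≤ -mg →
      (W (x, y)).1 < 0)
    (h3 : ∀ x ∈ Icc 0 a₃, ∀ y ∈ Icc 0 b₃, (1 ≤ α x ∨ 1 ≤ β y) → mg ≤ tq (α x) (β y) →
      0 < (W (x, y)).2)
    (h4 : ∀ x ∈ Icc 0 a₃, ∀ y ∈ Icc 0 b₃, (1 ≤ α x ∨ 1 ≤ β y) → tq (α x) (β y) ≤ -mg →
      (W (x, y)).2 < 0) :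
    Quad W a₁ a₂ a₃ b₀ b₁ b₃ := by
  have A0 := hα.h0
  have A01 := hα.h01
  have A12 := hα.h12
  have A23 := hα.h23
  have B0 := hβ.h0
  have B01 := hβ.h01
  have B12 := hβ.h12
  have B23 := hβ.h23
  have hα0 : ∀ x, 0 ≤ x → x ≤ a₃ → 0 ≤ α x := fun x h1 h2 => by
    rw [← hα.a]; exact hα.mono ⟨le_rfl, by linarith⟩ ⟨h1, h2⟩ h1
  have hβ0 : ∀ y, 0 ≤ y → y ≤ b₃ → 0 ≤ β y := fun y h1 h2 => by
    rw [← hβ.a]; exact hβ.mono ⟨le_rfl, by linarith⟩ ⟨h1, h2⟩ h1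
  have hα2 : ∀ x, 0 ≤ x → x ≤ a₃ → α x ≤ 2 := fun x h1 h2 => by
    rw [← hα.a3]; exact hα.mono ⟨h1, h2⟩ ⟨by linarith, le_rfl⟩ h2
  have hβ2 : ∀ y, 0 ≤ y → y ≤ b₃ → β y ≤ 2 := fun y h1 h2 => by
    rw [← hβ.a3]; exact hβ.mono ⟨h1, h2⟩ ⟨by linarith, le_rfl⟩ h2
  have hαle1 : ∀ x, 0 ≤ x → x ≤ a₁ → α x ≤ 1 := fun x h1 h2 => by
    rw [← hα.a1]; exact hα.mono ⟨h1, by linarith⟩ ⟨by linarith, by linarith⟩ h2
  have hαge1 : ∀ x, a₁ ≤ x → x ≤ a₃ → 1 ≤ α x := fun x h1 h2 => by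
    rw [← hα.a1]; exact hα.mono ⟨by linarith, by linarith⟩ ⟨by linarith, by linarith⟩ h1
  have hαle2 : ∀ x, 0 ≤ x → x ≤ a₂ → α x ≤ 6 / 5 := fun x h1 h2 => by
    rw [← hα.a2]; exact hα.mono ⟨h1, by linarith⟩ ⟨by linarith, by linarith⟩ h2
  have hαge2 : ∀ x, a₂ ≤ x → x ≤ a₃ → 6 / 5 ≤ α x := fun x h1 h2 => by
    rw [← hα.a2]; exact hα.mono ⟨by linarith, by linarith⟩ ⟨by linarith, by linarith⟩ h1
  have hβge1 : ∀ y, b₁ ≤ y → y ≤ b₃ → 1 ≤ β y := fun y h1 h2 => by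
    rw [← hβ.a1]; exact hβ.mono ⟨by linarith, by linarith⟩ ⟨by linarith, by linarith⟩ h1
  have hβge0 : ∀ y, b₀ ≤ y → y ≤ b₃ → 3 / 5 ≤ β y := fun y h1 h2 => by
    rw [← hβ.a0]; exact hβ.mono ⟨by linarith, by linarith⟩ ⟨by linarith, by linarith⟩ h1
  have hβle0 : ∀ y, 0 ≤ y → y ≤ b₀ → β y ≤ 3 / 5 := fun y h1 h2 => by
    rw [← hβ.a0]; exact hβ.mono ⟨h1, by linarith⟩ ⟨by linarith, by linarith⟩ h2
  refine ⟨by linarith, A12, A23, B0, B01, by linarith, ?_, ?_, ?_, ?_, ?_, ?_, ?_, ?_⟩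
  · intro x g1 g2
    refine h4 x ⟨g1, g2⟩ b₃ ⟨by linarith, le_rfl⟩ (Or.inr (by rw [hβ.a3]; norm_num)) ?_
    have := hα0 x g1 g2
    rw [hβ.a3]; unfold tq mg; linarith
  · intro y g1 g2
    refine h2 a₃ ⟨by linarith, le_rfl⟩ y ⟨g1, g2⟩ (Or.inl (by rw [hα.a3]; norm_num)) ?_
    have := hβ2 y g1 g2
    rw [hα.a3]; unfold tp mg; linarith
  · intro x g1 g2
    refine h3 x ⟨g1, by linarith⟩ b₁ ⟨by linarith, by linarith⟩ (Or.inr (by rw [hβ.a1])) ?_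
    have := hαle1 x g1 g2
    rw [hβ.a1]; unfold tq mg; linarith
  · intro y g1 g2
    refine h1 a₁ ⟨by linarith, by linarith⟩ y ⟨g1, by linarith⟩ (Or.inl (by rw [hα.a1])) ?_
    have := hβ0 y g1 (by linarith)
    rw [hα.a1]; unfold tp mg; linarith
  · intro x y g1 g2 g3 g4
    exact h1 x ⟨g1, by linarith⟩ y ⟨by linarith, g4⟩ (Or.inr (hβge1 y g3 g4))
      (tp_z1 (hα0 x g1 (by linarith)) (hαle2 x g1 g2) (hβge1 y g3 g4))
  · intro x y g1 g2 g3 g4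
    exact h1 x ⟨by linarith, by linarith⟩ y ⟨by linarith, by linarith⟩
      (Or.inl (hαge1 x g1 (by linarith)))
      (tp_z1' (hαge1 x g1 (by linarith)) (hαle2 x (by linarith) g2) (hβge0 y g3 (by linarith)))
  · intro x y g1 g2 g3 g4
    exact h4 x ⟨by linarith, g2⟩ y ⟨g3, g4⟩ (Or.inl (by linarith [hαge2 x g1 g2]))
      (tq_z2 (hαge2 x g1 g2) (hβ0 y g3 g4))
  · intro x y g1 g2 g3 g4
    exact h4 x ⟨by linarith, g2⟩ y ⟨g3, by linarith⟩ (Or.inl (hαge1 x g1 g2))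
      (tq_z2' (hαge1 x g1 g2) (hβ0 y g3 (by linarith)) (hβle0 y g3 g4))

section coord

variable {x₀ s p ρ : ℝ}

/-- the levels -/
noncomputable def lv (x₀ s p ρ t : ℝ) : ℝ := x₀ * Real.exp ((p + ρ * t / 2) / s)

/-- the coordinate -/
noncomputable def lc (x₀ s p ρ x : ℝ) : ℝ := 2 * (s * Real.log (x / x₀) - p) / ρ

lemma lv_pos (hx : 0 < x₀) (t : ℝ) : 0 < lv x₀ s p ρ t := mul_pos hx (Real.exp_pos _)

lemma lc_lv (hx : 0 < x₀) (hs : 0 < s) (hρ : 0 < ρ) (t : ℝ) :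
    lc x₀ s p ρ (lv x₀ s p ρ t) = t := by
  unfold lc lv
  rw [mul_div_cancel_left₀ _ hx.ne', Real.log_exp]
  field_simp
  ring

lemma lv_lt (hx : 0 < x₀) (hs : 0 < s) (hρ : 0 < ρ) {t t' : ℝ} (h : t < t') :
    lv x₀ s p ρ t < lv x₀ s p ρ t' := by
  unfold lv
  refine mul_lt_mul_of_pos_left (Real.exp_lt_exp.2 ?_) hx
  apply div_lt_div_of_pos_right _ hs
  nlinarith

lemma lc_mono (hx : 0 < x₀) (hs : 0 < s) (hρ : 0 < ρ) {x y : ℝ} (h0 : 0 < x) (h : x ≤ y) :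
    lc x₀ s p ρ x ≤ lc x₀ s p ρ y := by
  unfold lc
  apply div_le_div_of_nonneg_right _ hρ.le
  have h1 : Real.log (x / x₀) ≤ Real.log (y / x₀) :=
    Real.log_le_log (div_pos h0 hx) (div_le_div_of_nonneg_right h hx.le)
  have h2 := mul_le_mul_of_nonneg_left h1 hs.le
  linarith

lemma coord_plus (hx : 0 < x₀) (hs : 0 < s) (hρ : 0 < ρ) :
    Coord (fun x => lc x₀ s p ρ (lv x₀ s p ρ 0 + x))
      (lv x₀ s p ρ (3 / 5) - lv x₀ s p ρ 0) (lv x₀ s p ρ 1 - lv x₀ s p ρ 0)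
      (lv x₀ s p ρ (6 / 5) - lv x₀ s p ρ 0) (lv x₀ s p ρ 2 - lv x₀ s p ρ 0) := by
  have h0 := lv_pos (s := s) (p := p) (ρ := ρ) hx 0
  have h1 := lv_lt (p := p) hx hs hρ (t := 0) (t' := 3 / 5) (by norm_num)
  have h2 := lv_lt (p := p) hx hs hρ (t := 3 / 5) (t' := 1) (by norm_num)
  have h3 := lv_lt (p := p) hx hs hρ (t := 1) (t' := 6 / 5) (by norm_num)
  have h4 := lv_lt (p := p) hx hs hρ (t := 6 / 5) (t' := 2) (by norm_num)
  refine ⟨by linarith, by linarith, by linarith, by linarith, ?_, ?_, ?_, ?_, ?_, ?_⟩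
  · intro x hx' y hy hxy
    exact lc_mono hx hs hρ (by linarith [hx'.1]) (by linarith)
  · simp only [add_zero]; exact lc_lv hx hs hρ _
  all_goals simp only [add_sub_cancel]; exact lc_lv hx hs hρ _

lemma coord_minus (hx : 0 < x₀) (hs : 0 < s) (hρ : 0 < ρ) :
    Coord (fun x => -lc x₀ s p ρ (lv x₀ s p ρ 0 - x))
      (lv x₀ s p ρ 0 - lv x₀ s p ρ (-(3 / 5))) (lv x₀ s p ρ 0 - lv x₀ s p ρ (-1))
      (lv x₀ s p ρ 0 - lv x₀ s p ρ (-(6 / 5))) (lv x₀ s p ρ 0 - lv x₀ s p ρ (-2)) := by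
  have h0 := lv_pos (s := s) (p := p) (ρ := ρ) hx (-2)
  have h1 := lv_lt (p := p) hx hs hρ (t := -(3 / 5)) (t' := 0) (by norm_num)
  have h2 := lv_lt (p := p) hx hs hρ (t := -1) (t' := -(3 / 5)) (by norm_num)
  have h3 := lv_lt (p := p) hx hs hρ (t := -(6 / 5)) (t' := -1) (by norm_num)
  have h4 := lv_lt (p := p) hx hs hρ (t := -2) (t' := -(6 / 5)) (by norm_num)
  refine ⟨by linarith, by linarith, by linarith, by linarith, ?_, ?_, ?_, ?_, ?_, ?_⟩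
  · intro x hx' y hy hxy
    have := lc_mono (p := p) hx hs hρ (x := lv x₀ s p ρ 0 - y) (y := lv x₀ s p ρ 0 - x)
      (by linarith [hy.2]) (by linarith)
    simp only
    linarith
  · simp only [sub_zero]
    rw [lc_lv hx hs hρ]; norm_num
  all_goals
    simp only [sub_sub_cancel]
    rw [lc_lv hx hs hρ]; norm_num

lemma le_lc (hx : 0 < x₀) (hs : 0 < s) (hρ : 0 < ρ) {t x : ℝ} (h : lv x₀ s p ρ t ≤ x) :
    t ≤ lc x₀ s p ρ x := by
  have := lc_mono (p := p) hx hs hρ (lv_pos hx t) h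
  rwa [lc_lv hx hs hρ] at this

lemma lc_le (hx : 0 < x₀) (hs : 0 < s) (hρ : 0 < ρ) {t x : ℝ} (h0 : 0 < x)
    (h : x ≤ lv x₀ s p ρ t) : lc x₀ s p ρ x ≤ t := by
  have := lc_mono (p := p) hx hs hρ h0 h
  rwa [lc_lv hx hs hρ] at this

lemma exp_log_eq (hx : 0 < x₀) (hs : 0 < s) {x : ℝ} (h0 : 0 < x) :
    x₀ * Real.exp (s * Real.log (x / x₀) / s) = x := by
  rw [mul_div_cancel_left₀ _ hs.ne', Real.exp_log (div_pos h0 hx), mul_div_cancel₀ _ hx.ne']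

lemma abs_lc (hρ : 0 < ρ) (x : ℝ) :
    |lc x₀ s p ρ x| = 2 * |s * Real.log (x / x₀) - p| / ρ := by
  unfold lc
  rw [abs_div, abs_mul, abs_of_pos hρ, abs_of_pos (by norm_num : (0 : ℝ) < 2)]

end coord

/-- points of the ring -/
lemma mem_ring {x₀ y₀ s p ρ : ℝ} (hs : 0 < s) (hρ : 0 < ρ) {x y : ℝ}
    (h1 : |lc x₀ s p ρ x| ≤ 2) (h2 : |lc y₀ s 0 ρ y| ≤ 2)
    (h3 : 1 ≤ |lc x₀ s p ρ x| ∨ 1 ≤ |lc y₀ s 0 ρ y|) :
    ((s * Real.log (x / x₀), s * Real.log (y / y₀)) : ℝ × ℝ) ∈ ring p ρ := by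
  rw [abs_lc hρ, abs_lc hρ] at h3
  rw [abs_lc hρ, div_le_iff₀ hρ] at h1 h2
  rw [sub_zero] at h2 h3
  rw [le_div_iff₀ hρ, le_div_iff₀ hρ] at h3
  refine ⟨by simp only; linarith, by simp only; linarith, ?_⟩
  rcases h3 with h | h
  · left; simp only; linarith
  · right; simp only; linarith

theorem ring_all (hr : S_RACE) : S_RING := by
  intro S A B x₀ y₀ s p ρ hx₀ hy₀ hs hρ hsg
  have hmg : (0 : ℝ) < mg := by unfold mg; norm_num
  obtain ⟨X, hX⟩ : ∃ X : ℝ → ℝ, X = lv x₀ s p ρ := ⟨_, rfl⟩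
  obtain ⟨Y, hY⟩ : ∃ Y : ℝ → ℝ, Y = lv y₀ s 0 ρ := ⟨_, rfl⟩
  obtain ⟨ux, hux⟩ : ∃ u : ℝ → ℝ, u = lc x₀ s p ρ := ⟨_, rfl⟩
  obtain ⟨uy, huy⟩ : ∃ u : ℝ → ℝ, u = lc y₀ s 0 ρ := ⟨_, rfl⟩
  have kp := coord_plus (p := p) hx₀ hs hρ
  have km := coord_minus (p := p) hx₀ hs hρ
  have lp := coord_plus (p := 0) hy₀ hs hρ
  have lm := coord_minus (p := 0) hy₀ hs hρ
  rw [← hX, ← hux] at kp km
  rw [← hY, ← huy] at lp lm
  have hkm : 0 < X (-2) := by rw [hX]; exact lv_pos hx₀ _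
  have hlm : 0 < Y (-2) := by rw [hY]; exact lv_pos hy₀ _
  have hbX : ∀ x, X (-2) ≤ x → x ≤ X 2 → |ux x| ≤ 2 := by
    intro x g1 g2
    rw [hux, hX] at *
    rw [abs_le]
    exact ⟨le_lc hx₀ hs hρ g1, lc_le hx₀ hs hρ (by linarith) g2⟩
  have hbY : ∀ y, Y (-2) ≤ y → y ≤ Y 2 → |uy y| ≤ 2 := by
    intro y g1 g2
    rw [huy, hY] at *
    rw [abs_le]
    exact ⟨le_lc hy₀ hs hρ g1, lc_le hy₀ hs hρ (by linarith) g2⟩
  have hall : ∀ x y, X (-2) ≤ x → x ≤ X 2 → Y (-2) ≤ y → y ≤ Y 2 →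
      (1 ≤ |ux x| ∨ 1 ≤ |uy y|) →
      (mg ≤ tp (ux x) (uy y) → 0 < (polyF S A B (x, y)).1) ∧
      (tp (ux x) (uy y) ≤ -mg → (polyF S A B (x, y)).1 < 0) ∧
      (mg ≤ tq (ux x) (uy y) → 0 < (polyF S A B (x, y)).2) ∧
      (tq (ux x) (uy y) ≤ -mg → (polyF S A B (x, y)).2 < 0) := by
    intro x y g1 g2 g3 g4 g5
    have a1 := hbX x g1 g2
    have a2 := hbY y g3 g4
    have hx0 : 0 < x := by linarith
    have hy0 : 0 < y := by linarith
    rw [hux] at a1 g5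
    rw [huy] at a2 g5
    have hz := mem_ring hs hρ a1 a2 g5
    obtain ⟨i1, i2, i3, i4⟩ := hsg _ hz
    simp only [exp_log_eq hx₀ hs hx0, exp_log_eq hy₀ hs hy0] at i1 i2 i3 i4
    have e1 : (tgf p ρ (s * Real.log (x / x₀), s * Real.log (y / y₀))) =
        (tp (ux x) (uy y) / mg, tq (ux x) (uy y) / mg) := by
      rw [hux, huy]
      unfold tgf lc
      simp only [sub_zero]
    rw [e1] at i1 i2 i3 i4
    simp only at i1 i2 i3 i4
    rw [le_div_iff₀ hmg, one_mul] at i1 i3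
    rw [div_le_iff₀ hmg, neg_one_mul] at i2 i4
    exact ⟨i1, i2, i3, i4⟩
  have htq : ∀ u v, -tq v (-u) = tp u v := by intro u v; unfold tq tp; ring
  have htp : ∀ u v, tp v (-u) = tq u v := by intro u v; unfold tq tp; ring
  have htp2 : ∀ u v, tp (-u) (-v) = -tp u v := by intro u v; unfold tp; ring
  have htq2 : ∀ u v, tq (-u) (-v) = -tq u v := by intro u v; unfold tq; ring
  have htq3 : ∀ u v, tq (-v) u = tp u v := by intro u v; unfold tq tp; ring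
  have htp3 : ∀ u v, -tp (-v) u = tq u v := by intro u v; unfold tq tp; ring
  have K1 := km.h0
  have K2 := km.h01
  have K3 := km.h12
  have K4 := km.h23
  have K5 := kp.h0
  have K6 := kp.h01
  have K7 := kp.h12
  have K8 := kp.h23
  have L1 := lm.h0
  have L2 := lm.h01
  have L3 := lm.h12
  have L4 := lm.h23
  have L5 := lp.h0
  have L6 := lp.h01
  have L7 := lp.h12
  have L8 := lp.h23
  have ab1 : ∀ {r : ℝ}, 1 ≤ r → 1 ≤ |r| := fun h => h.trans (le_abs_self _)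
  have ab2 : ∀ {r : ℝ}, 1 ≤ -r → 1 ≤ |r| := fun h => h.trans (neg_le_abs _)
  obtain ⟨c, hc⟩ : ∃ c : ℝ × ℝ, c = (X 0, Y 0) := ⟨_, rfl⟩
  obtain ⟨W, hW⟩ : ∃ W : ℝ × ℝ → ℝ × ℝ, W = fun p => polyF S A B (c + p) := ⟨_, rfl⟩
  have hWc : ∀ x y, W (x, y) = polyF S A B (X 0 + x, Y 0 + y) := by
    intro x y; simp [hW, hc]
  have q1 : Quad W (X 1 - X 0) (X (6 / 5) - X 0)
      (X 2 - X 0) (Y (3 / 5) - Y 0) (Y 1 - Y 0) (Y 2 - Y 0) := by
    refine of_near' kp lp ?_ ?_ ?_ ?_ <;> intro x hx y hy h0 hh <;> rw [hWc]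
    · exact (hall _ _ (by linarith [hx.1]) (by linarith [hx.2])
        (by linarith [hy.1]) (by linarith [hy.2]) (h0.imp ab1 ab1)).1 hh
    · exact (hall _ _ (by linarith [hx.1]) (by linarith [hx.2])
        (by linarith [hy.1]) (by linarith [hy.2]) (h0.imp ab1 ab1)).2.1 hh
    · exact (hall _ _ (by linarith [hx.1]) (by linarith [hx.2])
        (by linarith [hy.1]) (by linarith [hy.2]) (h0.imp ab1 ab1)).2.2.1 hh
    · exact (hall _ _ (by linarith [hx.1]) (by linarith [hx.2])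
        (by linarith [hy.1]) (by linarith [hy.2]) (h0.imp ab1 ab1)).2.2.2 hh
  have e2 : ∀ x y, rotW W (x, y) = (-(polyF S A B (X 0 + y, Y 0 - x)).2,
      (polyF S A B (X 0 + y, Y 0 - x)).1) := by
    intro x y
    have : W (y, -x) = polyF S A B (X 0 + y, Y 0 - x) := by rw [hWc]; rfl
    rw [← this]; rfl
  have q2 : Quad (rotW W) (Y 0 - Y (-1)) (Y 0 - Y (-(6 / 5)))
      (Y 0 - Y (-2)) (X (3 / 5) - X 0) (X 1 - X 0) (X 2 - X 0) := by
    refine of_near' lm kp ?_ ?_ ?_ ?_ <;> intro x hx y hy h0 hh <;> rw [e2]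
    · rw [← htq, neg_neg] at hh
      exact neg_pos.2 ((hall _ _ (by linarith [hy.1]) (by linarith [hy.2])
        (by linarith [hx.2]) (by linarith [hx.1]) (h0.symm.imp ab1 ab2)).2.2.2 (by linarith))
    · rw [← htq, neg_neg] at hh
      exact neg_neg_of_pos ((hall _ _ (by linarith [hy.1]) (by linarith [hy.2])
        (by linarith [hx.2]) (by linarith [hx.1]) (h0.symm.imp ab1 ab2)).2.2.1 (by linarith))
    · rw [← htp, neg_neg] at hh
      exact (hall _ _ (by linarith [hy.1]) (by linarith [hy.2])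
        (by linarith [hx.2]) (by linarith [hx.1]) (h0.symm.imp ab1 ab2)).1 hh
    · rw [← htp, neg_neg] at hh
      exact (hall _ _ (by linarith [hy.1]) (by linarith [hy.2])
        (by linarith [hx.2]) (by linarith [hx.1]) (h0.symm.imp ab1 ab2)).2.1 hh
  have e3 : ∀ x y, rotW (rotW W) (x, y) = (-(polyF S A B (X 0 - x, Y 0 - y)).1,
      -(polyF S A B (X 0 - x, Y 0 - y)).2) := by
    intro x y
    have : rotW W (y, -x) = (-(polyF S A B (X 0 - x, Y 0 - y)).2,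
      (polyF S A B (X 0 - x, Y 0 - y)).1) := by
      rw [e2]; rfl
    have h5 : rotW (rotW W) (x, y) = rt (rotW W (y, -x)) := rfl
    rw [h5, this]; rfl
  have q3 : Quad (rotW (rotW W)) (X 0 - X (-1)) (X 0 - X (-(6 / 5)))
      (X 0 - X (-2)) (Y 0 - Y (-(3 / 5))) (Y 0 - Y (-1))
      (Y 0 - Y (-2)) := by
    refine of_near' km lm ?_ ?_ ?_ ?_ <;> intro x hx y hy h0 hh <;> rw [e3]
    · rw [htp2] at hh
      exact neg_pos.2 ((hall _ _ (by linarith [hx.2]) (by linarith [hx.1])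
        (by linarith [hy.2]) (by linarith [hy.1]) (h0.imp ab2 ab2)).2.1 (by linarith))
    · rw [htp2] at hh
      exact neg_neg_of_pos ((hall _ _ (by linarith [hx.2]) (by linarith [hx.1])
        (by linarith [hy.2]) (by linarith [hy.1]) (h0.imp ab2 ab2)).1 (by linarith))
    · rw [htq2] at hh
      exact neg_pos.2 ((hall _ _ (by linarith [hx.2]) (by linarith [hx.1])
        (by linarith [hy.2]) (by linarith [hy.1]) (h0.imp ab2 ab2)).2.2.2 (by linarith))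
    · rw [htq2] at hh
      exact neg_neg_of_pos ((hall _ _ (by linarith [hx.2]) (by linarith [hx.1])
        (by linarith [hy.2]) (by linarith [hy.1]) (h0.imp ab2 ab2)).2.2.1 (by linarith))
  have e4 : ∀ x y, rotW (rotW (rotW W)) (x, y) = ((polyF S A B (X 0 - y, Y 0 + x)).2,
      -(polyF S A B (X 0 - y, Y 0 + x)).1) := by
    intro x y
    have h5 : rotW (rotW (rotW W)) (x, y) = rt (rotW (rotW W) (y, -x)) := rfl
    rw [h5, e3, sub_neg_eq_add]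
    simp [rt]
  have q4 : Quad (rotW (rotW (rotW W))) (Y 1 - Y 0) (Y (6 / 5) - Y 0)
      (Y 2 - Y 0) (X 0 - X (-(3 / 5))) (X 0 - X (-1))
      (X 0 - X (-2)) := by
    refine of_near' lp km ?_ ?_ ?_ ?_ <;> intro x hx y hy h0 hh <;> rw [e4]
    · rw [← htq3, neg_neg] at hh
      exact (hall _ _ (by linarith [hy.2]) (by linarith [hy.1])
        (by linarith [hx.1]) (by linarith [hx.2]) (h0.symm.imp ab2 ab1)).2.2.1 hh
    · rw [← htq3, neg_neg] at hh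
      exact (hall _ _ (by linarith [hy.2]) (by linarith [hy.1])
        (by linarith [hx.1]) (by linarith [hx.2]) (h0.symm.imp ab2 ab1)).2.2.2 hh
    · rw [← htp3, neg_neg] at hh
      exact neg_pos.2 ((hall _ _ (by linarith [hy.2]) (by linarith [hy.1])
        (by linarith [hx.1]) (by linarith [hx.2]) (h0.symm.imp ab2 ab1)).2.1 (by linarith))
    · rw [← htp3, neg_neg] at hh
      exact neg_neg_of_pos ((hall _ _ (by linarith [hy.2]) (by linarith [hy.1])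
        (by linarith [hx.1]) (by linarith [hx.2]) (h0.symm.imp ab2 ab1)).1 (by linarith))
  rw [hW] at q1 q2 q3 q4
  obtain ⟨C, hC, hCb, hCi, hCo⟩ := hr q1 q2 q3 q4
  have hcc : c = (x₀ * Real.exp (p / s), y₀) := by
    rw [hc, hX, hY]
    unfold lv
    simp
  rw [hcc] at hCo
  refine ⟨C, hC, fun q hq => ?_, hCo⟩
  obtain ⟨⟨g1, g2⟩, ⟨g3, g4⟩⟩ := hCb q hq
  have hi := hCi q hq
  simp only [hc, Prod.fst_sub, Prod.snd_sub] at g1 g2 g3 g4 hi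
  have b1 : X (-2) ≤ q.1 := by linarith
  have b2 : q.1 ≤ X 2 := by linarith
  have b3 : Y (-2) ≤ q.2 := by linarith
  have b4 : q.2 ≤ Y 2 := by linarith
  have a1 := hbX q.1 b1 b2
  have a2 := hbY q.2 b3 b4
  have hor : 1 ≤ |ux q.1| ∨ 1 ≤ |uy q.2| := by
    by_contra hcon
    push Not at hcon
    obtain ⟨n1, n2⟩ := hcon
    rw [abs_lt] at n1 n2
    apply hi
    rw [hux] at n1
    rw [huy] at n2
    refine ⟨?_, ?_, ?_, ?_⟩
    · by_contra h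
      push Not at h
      have h' : q.1 ≤ lv x₀ s p ρ (-1) := by rw [← hX]; linarith
      have := lc_le hx₀ hs hρ (by linarith) h'
      linarith
    · by_contra h
      push Not at h
      have h' : lv x₀ s p ρ 1 ≤ q.1 := by rw [← hX]; linarith
      have := le_lc hx₀ hs hρ h'
      linarith
    · by_contra h
      push Not at h
      have h' : q.2 ≤ lv y₀ s 0 ρ (-1) := by rw [← hY]; linarith
      have := lc_le hy₀ hs hρ (by linarith) h'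
      linarith
    · by_contra h
      push Not at h
      have h' : lv y₀ s 0 ρ 1 ≤ q.2 := by rw [← hY]; linarith
      have := le_lc hy₀ hs hρ h'
      linarith
  rw [hux] at a1 hor
  rw [huy] at a2 hor
  refine ⟨_, mem_ring hs hρ a1 a2 hor, ?_⟩
  simp only [exp_log_eq hx₀ hs (by linarith : 0 < q.1), exp_log_eq hy₀ hs (by linarith : 0 < q.2)]

end Pool.Agent.Y333.KS
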